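import Mathlib
import Pool.Agent.Helper53.Smash.Main

/-!
# Voevodsky's smash-nilpotence conjecture: reduction to powers of one divisor on rational varieties

The definitions are in `Pool/Agent/Helper81/Smash/Defs.lean` (rational Chow rings, exterior powers) and
`Pool/Agent/Helper53/Smash/Defs.lean` (blow-ups of projective spaces, rational varieties).

Proof. Embed `X` in a projective space in codimension at least two, let `j : E ⟶ B` be the exceptional
divisor of the blow-up, and `p : E ⟶ X`. By the self-intersection formula `j_* p^* a` has the same vanishing exterior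
powers as `a`. Then there is a bundle `E'` on the product of `B` with a power of the projective line whose Chern
classes are multiples of this cycle, and the power `h ^ N`, `N = rank E'`, of the class of `O(1)` on `P E'` has the
required properties.

The mathematics of the second step is due to helper81.
-/

set_option autoImplicit false

open CategoryTheory CategoryTheory.Limits

namespace Pool.Agent.Results.MP_bf8edd_ag.RationalVarieties

open Pool.Agent.Helper81.Smash Pool.Agent.Helper53.Smash

universe u v w

/-- Each homologically trivial cycle on any variety is exactly as smash-nilpotent as some homologically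
trivial power `b = D ^ r` of a divisor `D` on a RATIONAL variety of dimension `2 r`. So Voevodsky's
conjecture is equivalent to its case of these powers. -/
theorem result {𝒱 : Type u} [Category.{v} 𝒱] [HasFiniteProducts 𝒱] (T : BlowupTheory.{u, v, w} 𝒱) :
    (∀ (X : 𝒱) (i : ℕ) (a : T.A X), a ∈ T.gr X i → a ∈ T.hom X →
      ∃ (Y : 𝒱) (b : T.A Y), T.Rational Y ∧ MiddlePower T.toChowTheory b ∧ b ∈ T.hom Y ∧
        T.SameSmash b a) ∧
    (T.Voevodsky ↔ T.VoevodskyRational) := by
  have key : ∀ (X : 𝒱) (i : ℕ) (a : T.A X), a ∈ T.gr X i → a ∈ T.hom X →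
      ∃ (Y : 𝒱) (b : T.A Y), T.Rational Y ∧ MiddlePower T.toChowTheory b ∧ b ∈ T.hom Y ∧
        T.SameSmash b a := by
    intro X i a ha hh
    have h1 : T.pull (T.proj (T.blowup X).normal) a ∈ T.gr _ i := T.pull_gr _ ha
    obtain ⟨Y, L, r, hY, _, h2, h3, h4, h5⟩ := main' T.toChowTheory T.Rational (fun _ h => .prod _ h)
      (fun _ _ h0 h => .bundle _ _ h0 h) (.blow X) (Nat.le_add_left 1 i) ((T.blowup X).gysin.isPush.1 _ _ h1)
    exact ⟨Y, T.c L 1 ^ r, hY, ⟨L, r, h3, h2, rfl⟩, h4 ((T.blowup X).gysin.isPush.2 _ (T.pull_hom _ hh)),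
      fun m => (h5 m).trans (smash_gysin_iff T.toChowTheory (T.blowup X) a m)⟩
  refine ⟨key, fun h Y b _ hb hr => ?_, fun h X i a ha hh => ?_⟩
  · obtain ⟨L, r, _, _, rfl⟩ := hb
    exact h Y r _ (T.pow_mem (T.c_one_mem L) r) hr
  · obtain ⟨Y, b, h0, h1, h2, h3⟩ := key X i a ha hh
    obtain ⟨m, hm, h5⟩ := h Y b h0 h1 h2
    exact ⟨m, hm, (h3 m).mp h5⟩

end Pool.Agent.Results.MP_bf8edd_ag.RationalVarieties
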